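import Mathlib
import Pool.Agent.X308.Sq.Inter

/-!
# Smoothability defects of subquotients, unions and products

If the coordinate ring of a finite scheme `Γ` is a quotient of a subalgebra of that of `Γ'` (for
instance if there is a schematically dominant map `Γ' → Γ`) then
`deg Γ^n + δ(Γ^n) ≤ deg Γ'^n + δ(Γ'^n)` for all `n`. Hence
`δ(Γ₁ ∪ Γ₂) ≤ δ(Γ₁) + δ(Γ₂) + deg(Γ₁ ∩ Γ₂)` for the union of any two finite closed subschemes, the
growth rates of the powers are subadditive for such unions and submultiplicative for products, Q1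
is stable under products, it may be tested with subquotients of schemes which satisfy Q1, and it
suffices to prove Q1 for connected schemes which are not products.
-/

set_option autoImplicit false

namespace Pool.Agent.Results.MP_44217d_ag.Subquotients

open Pool.Agent.H826R3.SM Pool.Agent.TH671.DU Pool.Agent.X308.Sq TensorProduct

/-- The number `deg Γ^n + δ(Γ^n)`, `Γ = Spec A`. -/
noncomputable def total (k : Type) [Field k] (A : Type) [CommRing A] [Algebra k A] (n : ℕ) : ℕ :=
  Module.finrank k A ^ n + defect k (Pow k A n)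

/-- `A` is not a tensor product of two algebras of dimension at least `2`. -/
def Indec (k : Type) [Field k] (A : Type) [CommRing A] [Algebra k A] : Prop :=
  ∀ (B C : Type) [CommRing B] [Algebra k B] [Module.Finite k B] [CommRing C]
    [Algebra k C] [Module.Finite k C], 2 ≤ Module.finrank k B → 2 ≤ Module.finrank k C →
      IsEmpty (A ≃ₐ[k] B ⊗[k] C)

/-- `k` is an algebraically closed field, all algebras are commutative; `defect k A` is the
smoothability defect of `Spec A`, `Pow k A n` the coordinate ring of its `n`-th power, `QOne k A`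
is Q1 for `Spec A`, `Subquotient k A B` means that `A` is isomorphic to a quotient of a subalgebra
of `B`, `total k A n` is `(dim A)^n + δ((Spec A)^n)` and `rate k A` the infimum over `n ≥ 1` of
`(total k A n)^{1/n}`.
(1) `dim A + δ(Spec A)` is the least dimension of a finite-dimensional smoothable algebra of which
`A` is a subquotient. (2) `total k A n ≤ total k B n` for all `n`, and `rate k A ≤ rate k B`, if
`A` is a subquotient of `B`. (3) The unions of two finite closed subschemes `R ⧸ I`, `R ⧸ J`.
(4) Products. (5) A criterion for Q1. (6) Q1 follows from Q1 for local algebras which are not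
tensor products of two algebras of dimension at least `2`. -/
theorem result (k : Type) [Field k] [IsAlgClosed k] :
    (∀ (A : Type) [CommRing A] [Algebra k A] [Module.Finite k A],
      IsLeast {D : ℕ | ∃ (Z : Type) (_ : CommRing Z) (_ : Algebra k Z), Module.Finite k Z ∧
        Smoothable k Z ∧ Module.finrank k Z = D ∧ Subquotient k A Z}
        (Module.finrank k A + defect k A)) ∧
    (∀ (A B : Type) [CommRing A] [Algebra k A] [Module.Finite k A] [CommRing B] [Algebra k B]
      [Module.Finite k B], Subquotient k A B → (∀ n : ℕ, total k A n ≤ total k B n) ∧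
        (Nontrivial A → Nontrivial B → rate k A ≤ rate k B)) ∧
    (∀ (R : Type) [CommRing R] [Algebra k R] (I J : Ideal R), Module.Finite k (R ⧸ I) →
      Module.Finite k (R ⧸ J) →
      defect k (R ⧸ I ⊓ J) ≤
        defect k (R ⧸ I) + defect k (R ⧸ J) + Module.finrank k (R ⧸ I ⊔ J) ∧
      (∀ n : ℕ, total k (R ⧸ I ⊓ J) n ≤ ∑ r ∈ Finset.range (n + 1),
        n.choose r * (total k (R ⧸ I) r * total k (R ⧸ J) (n - r))) ∧
      (I ≠ ⊤ → J ≠ ⊤ → rate k (R ⧸ I ⊓ J) ≤ rate k (R ⧸ I) + rate k (R ⧸ J))) ∧
    (∀ (A B : Type) [CommRing A] [Algebra k A] [Module.Finite k A] [Nontrivial A] [CommRing B]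
      [Algebra k B] [Module.Finite k B] [Nontrivial B],
      (∀ n : ℕ, total k (A ⊗[k] B) n ≤ total k A n * total k B n) ∧
      rate k (A ⊗[k] B) ≤ rate k A * rate k B ∧ (QOne k A → QOne k B → QOne k (A ⊗[k] B))) ∧
    (∀ (A : Type) [CommRing A] [Algebra k A] [Module.Finite k A] [Nontrivial A],
      QOne k A ↔ ∀ η : ℝ, 0 < η →
        ∃ (N : ℕ) (Z : Type) (_ : CommRing Z) (_ : Algebra k Z), 1 ≤ N ∧ Module.Finite k Z ∧
          Nontrivial Z ∧ QOne k Z ∧ Subquotient k (Pow k A N) Z ∧
          (Module.finrank k Z : ℝ) ≤ ((1 + η) * Module.finrank k A) ^ N) ∧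
    ((∀ (A : Type) [CommRing A] [Algebra k A] [Module.Finite k A] [Nontrivial A], QOne k A) ↔
      ∀ (A : Type) [CommRing A] [Algebra k A] [Module.Finite k A] [IsLocalRing A],
        Indec k A → QOne k A) := by
  refine ⟨?_, ?_, ?_, ?_, ?_, ?_⟩
  · intro A _ _ _
    exact isLeast_subquotient A
  · intro A B _ _ _ _ _ _ h
    refine ⟨fun n => ?_, fun _ _ => rate_subquotient A B h⟩
    unfold total
    rw [sum_pow A n, sum_pow B n]
    exact mdeg_pow_subquotient A B h n
  · intro R _ _ I J hI hJ
    have hf := finite_inf I J hI hJ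
    refine ⟨defect_union I J hI hJ, fun n => ?_, rate_inf I J hI hJ⟩
    unfold total
    rw [sum_pow (R ⧸ I ⊓ J) n]
    refine (mdeg_pow_inf I J hI hJ n).trans (le_of_eq ?_)
    exact Finset.sum_congr rfl fun r _ => by rw [sum_pow (R ⧸ I) r, sum_pow (R ⧸ J) (n - r)]
  · intro A B _ _ _ _ _ _ _ _
    refine ⟨fun n => ?_, rate_tensor_le A B, qOne_tensor A B⟩
    unfold total
    rw [sum_pow (A ⊗[k] B) n, sum_pow A n, sum_pow B n]
    exact mdeg_pow_tensor A B n
  · intro A _ _ _ _
    exact qOne_iff_subquotient A
  · exact ⟨fun h A _ _ _ _ _ => h A, fun h A _ _ _ _ => qOne_of_indec h _ A rfl⟩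

end Pool.Agent.Results.MP_44217d_ag.Subquotients
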